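import Pool.Agent.H18.VZ.Targets
import Pool.Agent.H18.HX.Basic

/-!
# Board `vz_modules`, row NIV: invariant functions of iterates
-/

set_option autoImplicit false

open MvPolynomial
open Pool.Agent.H12.ZD (pmap)
open Pool.Agent.H18.HIT Pool.Agent.H18.HX Pool.Agent.H18.VZ

namespace Pool.Agent.H5.VZ

section niv

variable {L : ℕ} {k : Type} [Field k]

theorem niv_coeff (a b : ℕ → Po L k) (D : ℕ → ℕ) (ha : ∀ i, (a i).IsHomogeneous (D i))
    (hb : ∀ i, (b i).IsHomogeneous (D i)) (m : ℕ) : ∀ j,
    ((∏ i ∈ Finset.range m, (Polynomial.C (b i) * Polynomial.X - Polynomial.C (a i))).coeff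
      j).IsHomogeneous (∑ i ∈ Finset.range m, D i) := by
  induction m with
  | zero =>
    intro j
    rw [Finset.prod_range_zero, Finset.sum_range_zero, Polynomial.coeff_one]
    split_ifs
    · exact isHomogeneous_one _ _
    · exact isHomogeneous_zero _ _ _
  | succ m ih =>
    intro j
    rw [Finset.prod_range_succ, Finset.sum_range_succ, mul_sub, Polynomial.coeff_sub,
      Polynomial.coeff_mul_C]
    refine IsHomogeneous.sub ?_ ((ih j).mul (ha m))
    rw [← mul_assoc]
    rcases j with _ | j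
    · rw [Polynomial.mul_coeff_zero, Polynomial.coeff_X_zero, mul_zero]
      exact isHomogeneous_zero _ _ _
    · rw [Polynomial.coeff_mul_X, Polynomial.coeff_mul_C]
      exact (ih j).mul (hb m)

end niv

theorem pf_NIV : T_NIV := by
  intro N r d m k _ _ P F hP hF hS hm hN μ A B hA hB hPB hAB
  have hprime := isPrime_span hP.irr
  obtain ⟨a, ha⟩ : ∃ a : ℕ → Po (N + 1) k, a = fun i => aeval (it F i) A := ⟨_, rfl⟩
  obtain ⟨b, hb⟩ : ∃ b : ℕ → Po (N + 1) k, b = fun i => aeval (it F i) B := ⟨_, rfl⟩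
  have ha0 : a 0 = A := by
    rw [ha]
    show aeval (it F 0) A = A
    rw [it_zero, aeval_X_left_apply]
  have hb0 : b 0 = B := by
    rw [hb]
    show aeval (it F 0) B = B
    rw [it_zero, aeval_X_left_apply]
  have ha1 : ∀ i, a (i + 1) = aeval F (a i) := by
    intro i
    rw [ha]
    exact aeval_it_succ' F i A
  have hb1 : ∀ i, b (i + 1) = aeval F (b i) := by
    intro i
    rw [hb]
    exact aeval_it_succ' F i B
  have ham : aeval (it F m) A = a m := by rw [ha]
  have hbm : aeval (it F m) B = b m := by rw [hb]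
  rw [ham, hbm] at hAB
  have hah : ∀ i, (a i).IsHomogeneous (d ^ i * μ) := by
    intro i
    induction i with
    | zero =>
      rw [ha0, pow_zero, one_mul]
      exact hA
    | succ i ih =>
      rw [ha1, pow_succ', mul_assoc]
      exact ih.aeval F hF
  have hbh : ∀ i, (b i).IsHomogeneous (d ^ i * μ) := by
    intro i
    induction i with
    | zero =>
      rw [hb0, pow_zero, one_mul]
      exact hB
    | succ i ih =>
      rw [hb1, pow_succ', mul_assoc]
      exact ih.aeval F hF
  have hbne : ∀ i, ¬ P ∣ b i := by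
    intro i h
    apply hPB
    rw [← Ideal.mem_span_singleton] at h ⊢
    rw [hb] at h
    exact (hS.it i).inj _ h
  -- the field
  let Q := Po (N + 1) k ⧸ Ideal.span {P}
  have hQ : IsDomain Q := Ideal.Quotient.isDomain _
  let K := FractionRing Q
  obtain ⟨φ, hφ⟩ : ∃ φ : Po (N + 1) k →+* K, φ = (algebraMap Q K).comp
    (Ideal.Quotient.mk (Ideal.span {P})) := ⟨_, rfl⟩
  have hφ0 : ∀ c, φ c = 0 ↔ P ∣ c := by
    intro c
    rw [hφ, RingHom.comp_apply, ← Ideal.mem_span_singleton,
      map_eq_zero_iff _ (IsFractionRing.injective Q K)]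
    exact Ideal.Quotient.eq_zero_iff_mem
  have hφC : ∀ s : k, φ (C s) = algebraMap k K s := by
    intro s
    rw [hφ]
    rw [IsScalarTower.algebraMap_apply k Q K]
    rfl
  -- the polynomial
  obtain ⟨G, hG⟩ : ∃ G : Polynomial (Po (N + 1) k), G = ∏ i ∈ Finset.range m,
    (Polynomial.C (b i) * Polynomial.X - Polynomial.C (a i)) := ⟨_, rfl⟩
  have hGh : ∀ j, (G.coeff j).IsHomogeneous (∑ i ∈ Finset.range m, d ^ i * μ) := by
    intro j
    rw [hG]
    exact niv_coeff a b (fun i => d ^ i * μ) hah hbh m j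
  obtain ⟨G', hG'⟩ : ∃ G' : Polynomial (Po (N + 1) k),
    G' = G.map (aeval F : Po (N + 1) k →ₐ[k] Po (N + 1) k).toRingHom := ⟨_, rfl⟩
  have hG'c : ∀ j, G'.coeff j = aeval F (G.coeff j) := by
    intro j
    rw [hG', Polynomial.coeff_map]
    rfl
  have hG'2 : G' = ∏ i ∈ Finset.range m,
      (Polynomial.C (b (i + 1)) * Polynomial.X - Polynomial.C (a (i + 1))) := by
    rw [hG', hG, Polynomial.map_prod]
    refine Finset.prod_congr rfl fun i _ => ?_
    rw [Polynomial.map_sub, Polynomial.map_mul, Polynomial.map_C, Polynomial.map_C,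
      Polynomial.map_X, ha1, hb1]
    rfl
  have hGG : G' * (Polynomial.C (b 0) * Polynomial.X - Polynomial.C (a 0)) =
      G * (Polynomial.C (b m) * Polynomial.X - Polynomial.C (a m)) := by
    rw [hG'2, hG, ← Finset.prod_range_succ]
    exact (Finset.prod_range_succ' (fun i => Polynomial.C (b i) * Polynomial.X -
      Polynomial.C (a i)) m).symm
  have hb0' : φ (b 0) ≠ 0 := fun h => hbne 0 ((hφ0 _).1 h)
  have hlin : Polynomial.C (φ (b 0)) * (Polynomial.C (φ (b m)) * Polynomial.X -
      Polynomial.C (φ (a m))) = Polynomial.C (φ (b m)) *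
      (Polynomial.C (φ (b 0)) * Polynomial.X - Polynomial.C (φ (a 0))) := by
    have h1 : φ (a m) * φ (b 0) - φ (b m) * φ (a 0) = 0 := by
      rw [← map_mul, ← map_mul, ← map_sub, hφ0, ha0, hb0]
      exact hAB
    have h2 : Polynomial.C (φ (a m)) * Polynomial.C (φ (b 0)) =
        Polynomial.C (φ (b m)) * Polynomial.C (φ (a 0)) := by
      rw [← Polynomial.C_mul, ← Polynomial.C_mul, sub_eq_zero.1 h1]
    linear_combination (-1 : Polynomial K) * h2
  have hlne : Polynomial.C (φ (b 0)) * Polynomial.X - Polynomial.C (φ (a 0)) ≠ 0 := by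
    intro h
    apply hb0'
    have h1 := congrArg (fun p : Polynomial K => p.coeff 1) h
    simpa using h1
  have hmap : Polynomial.C (φ (b 0)) * G'.map φ = Polynomial.C (φ (b m)) * G.map φ := by
    apply mul_right_cancel₀ hlne
    have h1 := congrArg (Polynomial.map φ) hGG
    rw [Polynomial.map_mul, Polynomial.map_mul, Polynomial.map_sub, Polynomial.map_sub,
      Polynomial.map_mul, Polynomial.map_mul, Polynomial.map_C, Polynomial.map_C,
      Polynomial.map_C, Polynomial.map_C, Polynomial.map_X] at h1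
    calc Polynomial.C (φ (b 0)) * G'.map φ *
          (Polynomial.C (φ (b 0)) * Polynomial.X - Polynomial.C (φ (a 0)))
        = Polynomial.C (φ (b 0)) * (G'.map φ *
          (Polynomial.C (φ (b 0)) * Polynomial.X - Polynomial.C (φ (a 0)))) := by ring
      _ = Polynomial.C (φ (b 0)) * (G.map φ *
          (Polynomial.C (φ (b m)) * Polynomial.X - Polynomial.C (φ (a m)))) := by rw [h1]
      _ = G.map φ * (Polynomial.C (φ (b 0)) *
          (Polynomial.C (φ (b m)) * Polynomial.X - Polynomial.C (φ (a m)))) := by ring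
      _ = _ := by
        rw [hlin]
        ring
  have hco : ∀ j, φ (b 0) * φ (aeval F (G.coeff j)) = φ (b m) * φ (G.coeff j) := by
    intro j
    have h1 := congrArg (fun p : Polynomial K => p.coeff j) hmap
    simp only [Polynomial.coeff_C_mul, Polynomial.coeff_map] at h1
    rw [hG'c] at h1
    exact h1
  -- the top coefficient
  have hdeg : ∀ i, (Polynomial.C (b i) * Polynomial.X - Polynomial.C (a i)).natDegree ≤ 1 := by
    intro i
    rw [sub_eq_add_neg, ← Polynomial.C_neg]
    exact Polynomial.natDegree_linear_le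
  have htop : G.coeff m = ∏ i ∈ Finset.range m, b i := by
    have h1 := Polynomial.coeff_prod_of_natDegree_le (s := Finset.range m)
      (fun i => Polynomial.C (b i) * Polynomial.X - Polynomial.C (a i)) 1 (fun i _ => hdeg i)
    rw [Finset.card_range, mul_one, ← hG] at h1
    rw [h1]
    refine Finset.prod_congr rfl fun i _ => ?_
    rw [Polynomial.coeff_sub, Polynomial.coeff_C_mul, Polynomial.coeff_X_one, mul_one,
      Polynomial.coeff_C_succ, sub_zero]
  have hGm : φ (G.coeff m) ≠ 0 := by
    rw [htop, map_prod, Finset.prod_ne_zero_iff]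
    exact fun i _ h => hbne i ((hφ0 _).1 h)
  have hnd : G.natDegree ≤ m := by
    rw [hG]
    refine (Polynomial.natDegree_prod_le _ _).trans ?_
    refine (Finset.sum_le_sum fun i _ => hdeg i).trans ?_
    rw [Finset.sum_const, Finset.card_range, smul_eq_mul, mul_one]
  have hs : ∀ j, ∃ s : k, φ (G.coeff j) = algebraMap k K s * φ (G.coeff m) := by
    intro j
    have h1 : P ∣ aeval F (G.coeff j) * G.coeff m - aeval F (G.coeff m) * G.coeff j := by
      rw [← hφ0, map_sub, map_mul, map_mul]
      apply mul_left_cancel₀ hb0'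
      rw [mul_zero, mul_sub, ← mul_assoc, ← mul_assoc, hco, hco]
      ring
    obtain ⟨s, hs⟩ := hN _ _ _ (hGh j) (hGh m) (fun h => hGm ((hφ0 _).2 h)) h1
    refine ⟨s, ?_⟩
    rw [← hφ0, map_sub, map_mul, hφC] at hs
    exact sub_eq_zero.1 hs
  choose s hs using hs
  obtain ⟨S, hS'⟩ : ∃ S : Polynomial k, S = ∑ j ∈ Finset.range (m + 1),
    Polynomial.C (s j) * Polynomial.X ^ j := ⟨_, rfl⟩
  have hSm : S.coeff m = s m := by
    rw [hS', Polynomial.finsetSum_coeff, Finset.sum_eq_single_of_mem m
      (Finset.mem_range.2 (Nat.lt_succ_self m))]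
    · rw [Polynomial.coeff_C_mul, Polynomial.coeff_X_pow_self, mul_one]
    · intro j _ hj
      rw [Polynomial.coeff_C_mul, Polynomial.coeff_X_pow, if_neg (Ne.symm hj), mul_zero]
  have hSne : S ≠ 0 := by
    intro h
    rw [h, Polynomial.coeff_zero] at hSm
    apply hGm
    rw [hs m, ← hSm, map_zero, zero_mul]
  obtain ⟨x, hx⟩ : ∃ x : K, x = φ (a 0) / φ (b 0) := ⟨_, rfl⟩
  have hGx : (G.map φ).eval x = 0 := by
    rw [hG, Polynomial.map_prod, Polynomial.eval_prod]
    apply Finset.prod_eq_zero (Finset.mem_range.2 hm)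
    rw [Polynomial.map_sub, Polynomial.map_mul, Polynomial.map_C, Polynomial.map_C,
      Polynomial.map_X, Polynomial.eval_sub, Polynomial.eval_mul, Polynomial.eval_C,
      Polynomial.eval_C, Polynomial.eval_X, hx, mul_div_cancel₀ _ hb0', sub_self]
  have hSx : Polynomial.aeval x S = 0 := by
    rw [Polynomial.eval_map, Polynomial.eval₂_eq_sum_range' φ
      (Nat.lt_succ_of_le hnd)] at hGx
    have h1 : φ (G.coeff m) * Polynomial.aeval x S = 0 := by
      rw [← hGx, hS', map_sum, Finset.mul_sum]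
      refine Finset.sum_congr rfl fun j _ => ?_
      rw [map_mul, map_pow, Polynomial.aeval_X, Polynomial.aeval_C, hs j]
      ring
    exact (mul_eq_zero.1 h1).resolve_left hGm
  have hint : IsIntegral k x := IsAlgebraic.isIntegral ⟨S, hSne, hSx⟩
  have hdeg1 : (minpoly k x).degree = 1 :=
    IsAlgClosed.degree_eq_one_of_irreducible k (minpoly.irreducible hint)
  obtain ⟨c, hc⟩ := minpoly.mem_range_of_degree_eq_one k x hdeg1
  refine ⟨c, ?_⟩
  rw [← hφ0, map_sub, map_mul, hφC]
  have h2 : φ (a 0) = x * φ (b 0) := by rw [hx, div_mul_cancel₀ _ hb0']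
  rw [← ha0, ← hb0, h2, ← hc, sub_self]

end Pool.Agent.H5.VZ
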