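import Pool.Agent.H18.VZ.Targets
import Pool.Agent.H33.HX.HUP
import Pool.Agent.H70.HX.NRX
import Pool.Agent.H77.HIT.HF2
import Pool.Agent.H99.HIT.AVO
import Pool.Agent.H99.HIT.RTD

/-!
# Board `vz_modules`, row HFV: the Hilbert function of a subset of codimension two
-/

set_option autoImplicit false

open MvPolynomial
open Pool.Agent.H12.ZD (pmap)
open Pool.Agent.H18.HIT Pool.Agent.H18.HX Pool.Agent.H18.VZ

namespace Pool.Agent.H5.VZ

section hfv

variable {N : ℕ} {k : Type} [Field k]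

theorem aeval_up (q : Po N k) :
    (aeval (fun i : Fin N => (X i.succ : Po (N + 1) k)) q : Po (N + 1) k) = up q := by
  unfold up
  have h : (aeval (fun i : Fin N => (X i.succ : Po (N + 1) k)) : Po N k →ₐ[k] Po (N + 1) k) =
      rename Fin.succ := by
    apply algHom_ext
    intro i
    rw [aeval_X, rename_X]
  rw [h]

theorem evg_fse (P : Po (N + 1) k) :
    evg (fun i : Fin N => (X i.succ : Po (N + 1) k)) (X 0) (finSuccEquiv k N P) = P := by
  unfold evg
  induction P using MvPolynomial.induction_on with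
  | C a =>
    rw [finSuccEquiv_apply, eval₂Hom_C, RingHom.comp_apply, Polynomial.eval₂_C]
    exact aeval_C _ a
  | add p q hp hq => rw [map_add, Polynomial.eval₂_add, hp, hq]
  | mul_X p i hp =>
    rw [map_mul, Polynomial.eval₂_mul, hp]
    congr 1
    refine Fin.cases ?_ (fun j => ?_) i
    · rw [finSuccEquiv_X_zero, Polynomial.eval₂_X]
    · rw [finSuccEquiv_X_succ, Polynomial.eval₂_C]
      exact aeval_X _ j

theorem span_homog {P : Po (N + 1) k} {r : ℕ} (hP : P.IsHomogeneous r) :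
    ∀ c ∈ Ideal.span {P}, ∀ t, homogeneousComponent t c ∈ Ideal.span {P} := by
  intro c hc t
  obtain ⟨a, rfl⟩ := Ideal.mem_span_singleton.1 hc
  rw [Ideal.mem_span_singleton]
  rw [← sum_homogeneousComponent a, Finset.mul_sum, map_sum]
  refine Finset.dvd_sum fun e _ => ?_
  have h1 : (P * homogeneousComponent e a).IsHomogeneous (r + e) :=
    hP.mul (homogeneousComponent_isHomogeneous e a)
  rw [homogeneousComponent_of_mem h1]
  split_ifs
  · exact dvd_mul_right _ _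
  · exact dvd_zero _

theorem hf_up (P : Po (N + 1) k) (r : ℕ) (V : Ideal (Po (N + 1) k)) (hP : Hyp P r)
    (hPV : P ∈ V) (I0 : Ideal (Po N k)) (hI0 : ∀ c, c ∈ I0 → up c ∈ V) :
    ∃ D : ℕ, ∀ t, Hf V t ≤ D * Hf I0 t := by
  obtain ⟨l, hl⟩ : ∃ l : Fin N → Po (N + 1) k, l = fun i => X i.succ := ⟨_, rfl⟩
  have hlh : ∀ i, (l i).IsHomogeneous 1 := by
    intro i
    rw [hl]
    exact isHomogeneous_X _ _
  have hup : ∀ q : Po N k, (aeval l q : Po (N + 1) k) = up q := by
    intro q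
    rw [hl]
    exact aeval_up q
  have hint : ∀ i, ∃ Q : Polynomial (Po N k), Q.Monic ∧ evg l (X i) Q ∈ Ideal.span {P} := by
    intro i
    refine Fin.cases ?_ (fun j => ?_) i
    · refine ⟨finSuccEquiv k N P, hP.mon, ?_⟩
      rw [hl, evg_fse]
      exact Ideal.mem_span_singleton_self P
    · refine ⟨Polynomial.X - Polynomial.C (X j), Polynomial.monic_X_sub_C _, ?_⟩
      unfold evg
      rw [Polynomial.eval₂_sub, Polynomial.eval₂_X, Polynomial.eval₂_C]
      have h1 : (aeval l : Po N k →ₐ[k] Po (N + 1) k).toRingHom (X j) = X j.succ := by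
        show (aeval l (X j) : Po (N + 1) k) = X j.succ
        rw [aeval_X, hl]
      rw [h1, sub_self]
      exact Ideal.zero_mem _
  have hrel := fun i => Pool.Agent.H33.HX.hup_rel (Ideal.span {P}) l hlh
    (span_homog hP.hom) i (hint i)
  choose n q hq hr using hrel
  obtain ⟨D, hD⟩ : ∃ D : ℕ, ∀ i, n i ≤ D :=
    ⟨Finset.univ.sup n, fun i => Finset.le_sup (Finset.mem_univ i)⟩
  refine ⟨D ^ (N + 1), fun t => ?_⟩
  have hfin := (Pool.Agent.H99.HIT.pf_RTD N k t).1
  obtain ⟨W, hW⟩ : ∃ W, W = Submodule.map (Ideal.Quotient.mkₐ k I0).toLinearMap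
    (restrictTotalDegree (Fin N) k t) := ⟨_, rfl⟩
  have hWfin : Module.Finite k W := by
    rw [hW]
    infer_instance
  have hWf : Module.finrank k W = Hf I0 t := by
    rw [hW]
    rfl
  -- the map
  obtain ⟨ψ, hψ⟩ : ∃ ψ : (Po N k ⧸ I0) →ₐ[k] (Po (N + 1) k ⧸ V),
      ∀ v, ψ (Ideal.Quotient.mk _ v) = Ideal.Quotient.mk V (aeval l v) := by
    refine ⟨Ideal.Quotient.liftₐ I0 ((Ideal.Quotient.mkₐ k V).comp (aeval l)) ?_,
      fun v => rfl⟩
    intro a ha
    refine Ideal.Quotient.eq_zero_iff_mem.2 ?_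
    show (aeval l a : Po (N + 1) k) ∈ V
    rw [hup]
    exact hI0 a ha
  obtain ⟨Λ, hΛ⟩ : ∃ Λ : ((Fin (N + 1) → Fin D) → W) →ₗ[k] (Po (N + 1) k ⧸ V), ∀ w, Λ w =
      ∑ m : Fin (N + 1) → Fin D, Ideal.Quotient.mk V (∏ i, X i ^ (m i : ℕ)) * ψ (w m : _) := by
    refine ⟨∑ m : Fin (N + 1) → Fin D, (LinearMap.mulLeft k
      (Ideal.Quotient.mk V (∏ i, X i ^ (m i : ℕ)))) ∘ₗ ψ.toLinearMap ∘ₗ W.subtype ∘ₗ
        LinearMap.proj m, fun w => ?_⟩
    rw [LinearMap.sum_apply]
    rfl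
  have hle : Submodule.map (Ideal.Quotient.mkₐ k V).toLinearMap
      (restrictTotalDegree (Fin (N + 1)) k t) ≤ LinearMap.range Λ := by
    rw [Submodule.map_le_iff_le_comap]
    refine (Pool.Agent.H33.HX.hup_le (Ideal.span {P}) l D
      (fun i => ⟨n i, q i, hD i, hq i, hr i⟩) t).trans ?_
    unfold Pool.Agent.H33.HX.hupV
    rw [Submodule.span_le]
    rintro u (hu | ⟨m, v, hm, rfl⟩)
    · refine ⟨0, ?_⟩
      rw [map_zero]
      symm
      refine Ideal.Quotient.eq_zero_iff_mem.2 ?_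
      obtain ⟨a, ha⟩ := Ideal.mem_span_singleton.1 hu
      rw [ha]
      exact V.mul_mem_right _ hPV
    · have hvW : Ideal.Quotient.mk I0 v ∈ W := by
        rw [hW]
        refine ⟨v, ?_, rfl⟩
        exact (mem_restrictTotalDegree _ _ _).2 (by omega)
      classical
      refine ⟨Pi.single m ⟨_, hvW⟩, ?_⟩
      rw [hΛ, Finset.sum_eq_single_of_mem m (Finset.mem_univ _)]
      · rw [Pi.single_eq_same, hψ, ← map_mul]
        rfl
      · intro m' _ hm'
        rw [Pi.single_eq_of_ne hm']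
        simp
  have h1 : Hf V t ≤ Module.finrank k (LinearMap.range Λ) := Submodule.finrank_mono hle
  have h2 : Module.finrank k (LinearMap.range Λ) ≤
      Module.finrank k ((Fin (N + 1) → Fin D) → W) := LinearMap.finrank_range_le Λ
  rw [Module.finrank_pi_fintype, Finset.sum_const, Finset.card_univ, Fintype.card_fun,
    Fintype.card_fin, Fintype.card_fin, smul_eq_mul, hWf] at h2
  exact h1.trans h2

end hfv

theorem pf_HFV : T_HFV := by
  intro N r k _ P V hP hV hPV hc hno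
  obtain ⟨I0, hI0⟩ : ∃ I0 : Ideal (Po N k), ∀ c, c ∈ I0 ↔ up c ∈ V :=
    ⟨V.comap (rename Fin.succ : Po N k →ₐ[k] Po (N + 1) k), fun c => Iff.rfl⟩
  have hpr : I0.IsPrime := by
    have h1 : I0 = V.comap (rename Fin.succ : Po N k →ₐ[k] Po (N + 1) k) := by
      ext c
      exact hI0 c
    rw [h1]
    exact Ideal.IsPrime.comap _
  have hne : I0 ≠ ⊥ := by
    obtain ⟨c, hcV, hPc⟩ := hc
    obtain ⟨c', A, hc', hA⟩ := Pool.Agent.H70.HX.pf_NRX N k P c hP.irr hP.mon hPc
    intro h0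
    apply hc'
    rw [← Ideal.mem_bot, ← h0, hI0]
    have h1 : up c' = (up c' - c * A) + c * A := by ring
    rw [h1]
    obtain ⟨b, hb⟩ := hA
    refine V.add_mem ?_ (V.mul_mem_right _ hcV)
    rw [hb]
    exact V.mul_mem_right _ hPV
  have hW : ∀ W : Po N k, Irreducible W → ∃ c ∈ I0, ¬ W ∣ c := by
    intro W hirr
    by_contra hcon
    push Not at hcon
    apply hno
    refine ⟨W, hV, hPV, hirr, fun c => ?_⟩
    rw [← hI0]
    refine ⟨hcon c, fun h => ?_⟩
    obtain ⟨Y, hY, hYp⟩ := Ideal.IsPrime.exists_mem_prime_of_ne_bot hpr hne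
    have h1 : Associated W Y := hirr.associated_of_dvd hYp.irreducible (hcon Y hY)
    obtain ⟨b, hb⟩ := h1.symm.dvd.trans h
    rw [hb]
    exact I0.mul_mem_right _ hY
  obtain ⟨S, hS, S', hS', hS0, hS0', hrel⟩ := Pool.Agent.H99.HIT.pf_AVO N k I0 hne hW
  obtain ⟨B0, hB0⟩ := Pool.Agent.H77.HIT.pf_HF2 Pool.Agent.H99.HIT.pf_RTD N k I0 S S' hS hS'
    hS0 hS0' hrel
  obtain ⟨D, hD⟩ := hf_up P r V hP hPV I0 (fun c hc => (hI0 c).1 hc)
  refine ⟨D * B0, fun t => (hD t).trans ?_⟩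
  rw [mul_assoc]
  exact Nat.mul_le_mul_left _ (hB0 t)

end Pool.Agent.H5.VZ
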